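import Mathlib
import Pool.Agent.V1176.Blaschke

set_option autoImplicit false

open Pool.Agent.V1176.Bl

namespace Pool.Agent.Results.MP_4d1c53_an.IndestructibleComp

/-- The composition of two indestructible Blaschke products is an indestructible Blaschke
product. -/
theorem result : ∀ B C : ℂ → ℂ, Indestructible B → Indestructible C →
    Indestructible (fun z => B (C z)) :=
  fun _ _ hB hC => hB.comp hC

end Pool.Agent.Results.MP_4d1c53_an.IndestructibleComp
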